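import Pool.Agent.Helper66.AC.Path

/-!
MP_1bf996_co (almost k-covers of the cube): the graph dichotomy and the homogeneous theorem.
-/

open Finset

namespace Pool.Agent.Helper66.AC

section graph

variable {V : Type} [Fintype V] [DecidableEq V]

open Classical in
/-- the sphere of radius `t` around `c` -/
noncomputable def sphere (G : SimpleGraph V) (c : V) (t : ℕ) : Finset V :=
  univ.filter (fun v => G.Reachable c v ∧ G.dist c v = t)

open Classical in
theorem sphere_succ (G : SimpleGraph V) (c : V) (t : ℕ) :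
    sphere G c (t + 1) ⊆ (sphere G c t).biUnion (fun u => G.neighborFinset u) := by
  intro v hv
  rw [sphere, Finset.mem_filter] at hv
  obtain ⟨-, hr, hd⟩ := hv
  obtain ⟨w, hw⟩ := hr.exists_walk_length_eq_dist
  have hlen : w.length = t + 1 := hw.trans hd
  have hadj : G.Adj (w.getVert t) (w.getVert (t + 1)) := w.adj_getVert_succ (by omega)
  have hend : w.getVert (t + 1) = v := by rw [← hlen, SimpleGraph.Walk.getVert_length]
  rw [hend] at hadj
  rw [Finset.mem_biUnion]
  refine ⟨w.getVert t, ?_, by rw [SimpleGraph.mem_neighborFinset]; exact hadj⟩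
  rw [sphere, Finset.mem_filter]
  have hru : G.Reachable c (w.getVert t) := ⟨w.take t⟩
  refine ⟨Finset.mem_univ _, hru, ?_⟩
  apply le_antisymm
  · have h1 := SimpleGraph.dist_le (w.take t)
    have h2 : (w.take t).length = t := by
      rw [SimpleGraph.Walk.take_length]
      omega
    omega
  · obtain ⟨w', hw'⟩ := hru.exists_walk_length_eq_dist
    have h1 := SimpleGraph.dist_le (w'.concat hadj)
    rw [SimpleGraph.Walk.length_concat] at h1
    omega

open Classical in
theorem sphere_card (G : SimpleGraph V) (D : ℕ) (hD : ∀ v, (G.neighborFinset v).card ≤ D) (c : V)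
    (t : ℕ) : (sphere G c t).card ≤ (D + 1) ^ t := by
  induction t with
  | zero =>
    have : sphere G c 0 ⊆ {c} := by
      intro v hv
      rw [sphere, Finset.mem_filter] at hv
      obtain ⟨-, hr, hd⟩ := hv
      rw [Finset.mem_singleton]
      exact (hr.dist_eq_zero_iff.mp hd).symm
    simpa using Finset.card_le_card this
  | succ t ih =>
    refine (Finset.card_le_card (sphere_succ G c t)).trans ?_
    refine (Finset.card_biUnion_le_card_mul _ _ D (fun u _ => hD u)).trans ?_
    calc (sphere G c t).card * D ≤ (D + 1) ^ t * (D + 1) :=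
          Nat.mul_le_mul ih (Nat.le_succ _)
      _ = (D + 1) ^ (t + 1) := (pow_succ _ _).symm

open Classical in
/-- A large graph with few components has a vertex of large degree or a long path. -/
theorem dichotomy (G : SimpleGraph V) (D l m : ℕ)
    (hD : ∀ v, (G.neighborFinset v).card ≤ D)
    (hl : ¬ ∃ t : ℕ → V, (∀ i ≤ l, ∀ j ≤ l, t i = t j → i = j) ∧ ∀ i < l, G.Adj (t i) (t (i + 1)))
    (hm : (univ.image (fun v => G.connectedComponentMk v)).card ≤ m) :
    Fintype.card V ≤ (l + 1) * (D + 1) ^ l * m := by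
  have hsph : ∀ c t, l ≤ t → sphere G c t = ∅ := by
    intro c t hlt
    by_contra hne
    obtain ⟨v, hv⟩ := Finset.nonempty_iff_ne_empty.mpr hne
    rw [sphere, Finset.mem_filter] at hv
    obtain ⟨-, hr, hd⟩ := hv
    obtain ⟨w, hwp, hwl⟩ := hr.exists_path_of_dist
    have hlen : w.length = t := hwl.trans hd
    apply hl
    refine ⟨w.getVert, ?_, fun i hi => w.adj_getVert_succ (by omega)⟩
    intro i hi j hj hij
    exact hwp.getVert_injOn (by simp only [Set.mem_setOf_eq]; omega)
      (by simp only [Set.mem_setOf_eq]; omega) hij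
  have hfib : ∀ C ∈ univ.image (fun v => G.connectedComponentMk v),
      (univ.filter (fun v => G.connectedComponentMk v = C)).card ≤ (l + 1) * (D + 1) ^ l := by
    intro C hC
    rw [Finset.mem_image] at hC
    obtain ⟨c, -, rfl⟩ := hC
    have hsub : univ.filter (fun v => G.connectedComponentMk v = G.connectedComponentMk c) ⊆
        (Finset.range (l + 1)).biUnion (fun t => sphere G c t) := by
      intro v hv
      rw [Finset.mem_filter] at hv
      have hr : G.Reachable c v := (SimpleGraph.ConnectedComponent.eq.mp hv.2).symm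
      rw [Finset.mem_biUnion]
      refine ⟨G.dist c v, ?_, ?_⟩
      · rw [Finset.mem_range]
        by_contra hcon
        have := hsph c (G.dist c v) (by omega)
        have hmem : v ∈ sphere G c (G.dist c v) := by
          rw [sphere, Finset.mem_filter]
          exact ⟨Finset.mem_univ _, hr, rfl⟩
        rw [this] at hmem
        exact absurd hmem (Finset.notMem_empty v)
      · rw [sphere, Finset.mem_filter]
        exact ⟨Finset.mem_univ _, hr, rfl⟩
    refine (Finset.card_le_card hsub).trans ?_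
    refine (Finset.card_biUnion_le_card_mul _ _ ((D + 1) ^ l) ?_).trans ?_
    · intro t ht
      rw [Finset.mem_range] at ht
      exact (sphere_card G D hD c t).trans (Nat.pow_le_pow_right (by omega) (by omega))
    · rw [Finset.card_range]
  have h1 := Finset.card_le_mul_card_image (univ : Finset V) ((l + 1) * (D + 1) ^ l) hfib
  rw [Finset.card_univ] at h1
  exact h1.trans (Nat.mul_le_mul_left _ hm)

end graph

variable {V ι : Type} [Fintype V] [DecidableEq V] [Fintype ι] [DecidableEq ι]
variable {k : ℕ} (A : Cov V ι k)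

namespace Cov

/-- The graph of the edges. -/
def graph : SimpleGraph V where
  Adj x y := x ≠ y ∧ ∃ j ∈ A.E, (A.p j = x ∧ A.q j = y) ∨ (A.p j = y ∧ A.q j = x)
  symm := ⟨by
    rintro x y ⟨hne, j, hj, h⟩
    exact ⟨hne.symm, j, hj, h.symm⟩⟩
  loopless := ⟨fun x h => h.1 rfl⟩

open Classical in
/-- The number of components of the graph of the edges. -/
theorem comp_card (hk : 1 ≤ k) :
    (univ.image (fun v => A.graph.connectedComponentMk v)).card ≤ A.Eᶜ.card + 1 := by
  rcases isEmpty_or_nonempty V with hV | ⟨⟨v0⟩⟩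
  · simp
  set cm : V → A.graph.ConnectedComponent := fun v => A.graph.connectedComponentMk v with hcm
  set R := (univ.image cm).erase (cm v0) with hR
  have hcard : R.card + 1 = (univ.image cm).card :=
    Finset.card_erase_add_one (Finset.mem_image.mpr ⟨v0, Finset.mem_univ _, rfl⟩)
  have hsum : ∀ (u : Finset A.graph.ConnectedComponent) (w : ι),
      ∑ C ∈ u, ∑ v ∈ univ.filter (fun v => cm v = C), A.a w v =
      ∑ v ∈ univ.filter (fun v => cm v ∈ u), A.a w v := by
    intro u w
    rw [← Finset.sum_fiberwise_of_maps_to (s := univ.filter (fun v => cm v ∈ u)) (t := u) (g := cm)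
      (fun v hv => (Finset.mem_filter.mp hv).2)]
    refine Finset.sum_congr rfl fun C hC => ?_
    refine Finset.sum_congr ?_ fun _ _ => rfl
    ext v
    simp only [Finset.mem_filter, Finset.mem_univ, true_and]
    constructor
    · intro h
      exact ⟨h ▸ hC, h⟩
    · exact fun h => h.2
  have := star_poly R A.Eᶜ (fun w C => ∑ v ∈ univ.filter (fun v => cm v = C), A.a w v)
    (fun _ => 0) 1 (by
      intro u hu hne
      simp_rw [hsum]
      have hc := A.cov (univ.filter (fun v => cm v ∈ u)) (by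
        obtain ⟨C, hC⟩ := hne
        have hC' := Finset.mem_of_mem_erase (hu hC)
        rw [Finset.mem_image] at hC'
        obtain ⟨v, -, rfl⟩ := hC'
        exact ⟨v, by rw [Finset.mem_filter]; exact ⟨Finset.mem_univ _, hC⟩⟩) (by
        intro h
        have : v0 ∈ univ.filter (fun v => cm v ∈ u) := by rw [h]; exact Finset.mem_univ _
        rw [Finset.mem_filter] at this
        exact Finset.notMem_erase _ _ (hu this.2))
      obtain ⟨j, hj⟩ := Finset.card_pos.mp (lt_of_lt_of_le (by omega) hc)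
      rw [Finset.mem_filter] at hj
      refine ⟨j, ?_, hj.2⟩
      rw [Finset.mem_compl]
      intro hjE
      have h5 := A.edge j hjE (univ.filter (fun v => cm v ∈ u))
      rw [hj.2] at h5
      have hpq : cm (A.p j) = cm (A.q j) := by
        by_cases hne' : A.p j = A.q j
        · rw [hne']
        · have hadj : A.graph.Adj (A.p j) (A.q j) := ⟨hne', j, hjE, Or.inl ⟨rfl, rfl⟩⟩
          exact SimpleGraph.ConnectedComponent.eq.mpr hadj.reachable
      simp only [Finset.mem_filter, Finset.mem_univ, true_and, hpq] at h5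
      split_ifs at h5 <;> norm_num at h5) (fun u _ t ht1 ht2 => by omega)
  have h2 : R.card + 0 ≤ A.Eᶜ.card := by simpa using this
  omega

theorem exists_min (P : (V → V) → Prop) (hP : P id) :
    ∃ φ, A.Good φ ∧ P φ ∧ ∀ ψ, A.Good ψ → P ψ → (univ.image φ).card ≤ (univ.image ψ).card := by
  classical
  have hex : ∃ m, ∃ φ, A.Good φ ∧ P φ ∧ (univ.image φ).card = m := ⟨_, id, A.good_id, hP, rfl⟩
  obtain ⟨φ, h1, h2, h3⟩ := Nat.find_spec hex
  refine ⟨φ, h1, h2, fun ψ h4 h5 => ?_⟩
  rw [h3]
  exact Nat.find_min' hex ⟨ψ, h4, h5, rfl⟩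

end Cov

/-- The homogeneous theorem. -/
theorem main (k d : ℕ) (hk : 3 ≤ k) : ∃ n0 : ℕ, ∀ {V ι : Type} [Fintype V] [DecidableEq V]
    [Fintype ι] [DecidableEq ι] (A : Cov V ι k), A.Eᶜ.card ≤ d → n0 ≤ Fintype.card V →
    Fintype.card V + k.choose 2 ≤ Fintype.card ι + 1 := by
  classical
  obtain ⟨n1, hn1⟩ := Cov.star_case (k := k) (by omega) d
  set l := 2 ^ (d + k.choose 2) + 1 with hl
  refine ⟨(l + 1) * (n1 + 1) ^ l * (d + 1) + 1, ?_⟩
  intro V ι _ _ _ _ A hd hV
  by_contra hcon
  push Not at hcon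
  have hcomp := A.comp_card (by omega)
  have hdich : (∃ v, n1 < (A.graph.neighborFinset v).card) ∨
      ∃ t : ℕ → V, (∀ i ≤ l, ∀ j ≤ l, t i = t j → i = j) ∧ ∀ i < l, A.graph.Adj (t i) (t (i + 1)) := by
    by_contra hno
    rw [not_or] at hno
    obtain ⟨h1, h2⟩ := hno
    push Not at h1
    have := dichotomy A.graph n1 l (d + 1) h1 h2 (hcomp.trans (by omega))
    omega
  rcases hdich with ⟨c, hc⟩ | ⟨t, htinj, htadj⟩
  · -- star
    set Nb : (V → V) → Finset V := fun φ => univ.filter (fun i => i ≠ c ∧ φ i = i ∧ ∃ j ∈ A.E,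
      (φ (A.p j) = c ∧ φ (A.q j) = i) ∨ (φ (A.p j) = i ∧ φ (A.q j) = c)) with hNb
    obtain ⟨φ, hφ, ⟨hφc, hφn⟩, hmin⟩ := A.exists_min (fun φ => φ c = c ∧ n1 ≤ (Nb φ).card)
      ⟨rfl, by
        refine hc.le.trans (Finset.card_le_card ?_)
        intro i hi
        rw [SimpleGraph.mem_neighborFinset] at hi
        obtain ⟨hne, j, hj, h⟩ := hi
        rw [hNb, Finset.mem_filter]
        refine ⟨Finset.mem_univ _, hne.symm, rfl, j, hj, ?_⟩
        simpa using h⟩
    have hmerge : ∀ x y : V, x ≠ y → y ∉ insert c (Nb φ) → ∀ j ∈ A.E,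
        ((φ (A.p j) = x ∧ φ (A.q j) = y) ∨ (φ (A.p j) = y ∧ φ (A.q j) = x)) → False := by
      intro x y hxy hy j hj h
      rw [Finset.mem_insert, not_or] at hy
      obtain ⟨hg, hlt⟩ := A.good_merge hφ hj hxy h
      have h2 := hmin (Cov.merge φ x y) hg ⟨by simp [Cov.merge, hφc, Ne.symm hy.1], by
        refine hφn.trans (Finset.card_le_card ?_)
        intro i hi
        have hiy : i ≠ y := fun h' => hy.2 (h' ▸ hi)
        rw [hNb, Finset.mem_filter] at hi ⊢
        obtain ⟨-, hic, hii, j', hj', h'⟩ := hi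
        refine ⟨Finset.mem_univ _, hic, by simp [Cov.merge, hii, hiy], j', hj', ?_⟩
        rcases h' with ⟨e1, e2⟩ | ⟨e1, e2⟩
        · left
          exact ⟨by simp [Cov.merge, e1, Ne.symm hy.1], by simp [Cov.merge, e2, hiy]⟩
        · right
          exact ⟨by simp [Cov.merge, e1, hiy], by simp [Cov.merge, e2, Ne.symm hy.1]⟩⟩
      omega
    have hall : ∀ j ∈ A.E, φ (A.p j) ≠ φ (A.q j) →
        φ (A.p j) ∈ insert c (Nb φ) ∧ φ (A.q j) ∈ insert c (Nb φ) := by
      intro j hj hne
      constructor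
      · by_contra hx
        exact hmerge _ _ hne.symm hx j hj (Or.inr ⟨rfl, rfl⟩)
      · by_contra hx
        exact hmerge _ _ hne hx j hj (Or.inl ⟨rfl, rfl⟩)
    have hfin := hn1 A hd φ hφ c hφc (Nb φ) (by simp [hNb])
      (fun i hi => by rw [hNb, Finset.mem_filter] at hi; exact hi.2.2.1)
      (fun i hi => by rw [hNb, Finset.mem_filter] at hi; exact hi.2.2.2) hall hφn
    omega
  · -- path
    set T := (range (l + 1)).image t with hT
    have htT : ∀ i ≤ l, t i ∈ T := fun i hi => by
      rw [hT, Finset.mem_image]; exact ⟨i, Finset.mem_range.mpr (by omega), rfl⟩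
    obtain ⟨φ, hφ, ⟨hφt, hφe⟩, hmin⟩ := A.exists_min (fun φ => (∀ i ≤ l, φ (t i) = t i) ∧
      ∀ i < l, ∃ j ∈ A.E, (φ (A.p j) = t i ∧ φ (A.q j) = t (i + 1)) ∨
        (φ (A.p j) = t (i + 1) ∧ φ (A.q j) = t i))
      ⟨fun _ _ => rfl, fun i hi => (htadj i hi).2⟩
    have hmerge : ∀ x y : V, x ≠ y → y ∉ T → ∀ j ∈ A.E,
        ((φ (A.p j) = x ∧ φ (A.q j) = y) ∨ (φ (A.p j) = y ∧ φ (A.q j) = x)) → False := by
      intro x y hxy hy j hj h
      obtain ⟨hg, hlt⟩ := A.good_merge hφ hj hxy h
      have hty : ∀ i ≤ l, t i ≠ y := fun i hi h' => hy (h' ▸ htT i hi)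
      have h2 := hmin (Cov.merge φ x y) hg ⟨fun i hi => by
          simp [Cov.merge, hφt i hi, hty i hi], fun i hi => by
        obtain ⟨j', hj', h'⟩ := hφe i hi
        refine ⟨j', hj', ?_⟩
        rcases h' with ⟨e1, e2⟩ | ⟨e1, e2⟩
        · left
          exact ⟨by simp [Cov.merge, e1, hty i (by omega)],
            by simp [Cov.merge, e2, hty (i + 1) (by omega)]⟩
        · right
          exact ⟨by simp [Cov.merge, e1, hty (i + 1) (by omega)],
            by simp [Cov.merge, e2, hty i (by omega)]⟩⟩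
      omega
    have hall : ∀ j ∈ A.E, φ (A.p j) ≠ φ (A.q j) → φ (A.p j) ∈ T ∧ φ (A.q j) ∈ T := by
      intro j hj hne
      constructor
      · by_contra hx
        exact hmerge _ _ hne.symm hx j hj (Or.inr ⟨rfl, rfl⟩)
      · by_contra hx
        exact hmerge _ _ hne hx j hj (Or.inl ⟨rfl, rfl⟩)
    have := A.path_case hk d hd φ hφ l t hφt htinj hφe hall hcon
    omega

end Pool.Agent.Helper66.AC
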