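import Mathlib

/-!
MP_1bf996_co (almost k-covers of the cube): the polynomial lemma.
-/

open Finset Polynomial

namespace Pool.Agent.Helper66.AC

variable {ρ ω : Type*} [DecidableEq ρ]

/-- The alternating sum over the subsets of `R` of a product of affine functions loses `|R|`
degrees. -/
theorem altsum_degree (a : ω → ρ → ℝ) (W : Finset ω) :
    ∀ (R : Finset ρ) (c : ω → ℝ[X]), (∀ w, (c w).natDegree ≤ 1) → ∀ m : ℕ,
      W.card < R.card + m →
      (∑ u ∈ R.powerset, (-1 : ℝ[X]) ^ u.card * ∏ w ∈ W, (c w - C (∑ i ∈ u, a w i))).degree <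
        (m : WithBot ℕ) := by
  classical
  induction W using Finset.induction_on with
  | empty =>
    intro R c _ m hm
    simp only [Finset.prod_empty, mul_one]
    rcases R.eq_empty_or_nonempty with rfl | hR
    · simp only [Finset.card_empty, zero_add] at hm
      simp only [Finset.powerset_empty, Finset.sum_singleton, Finset.card_empty, pow_zero,
        Polynomial.degree_one]
      exact_mod_cast hm
    · have h0 : ∑ u ∈ R.powerset, (-1 : ℝ[X]) ^ u.card = 0 := by
        have h := Finset.sum_powerset_neg_one_pow_card_of_nonempty hR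
        have h' := congrArg (fun z : ℤ => (z : ℝ[X])) h
        push_cast at h'
        exact h'
      rw [h0, Polynomial.degree_zero]
      exact WithBot.bot_lt_coe _
  | insert w0 W hw0 ih =>
    intro R c hc m hm
    rw [Finset.card_insert_of_notMem hw0] at hm
    -- recursion
    have key : ∑ u ∈ R.powerset, (-1 : ℝ[X]) ^ u.card *
        ∏ w ∈ insert w0 W, (c w - C (∑ i ∈ u, a w i)) =
        c w0 * (∑ u ∈ R.powerset, (-1 : ℝ[X]) ^ u.card * ∏ w ∈ W, (c w - C (∑ i ∈ u, a w i))) +
        ∑ i ∈ R, C (a w0 i) * (∑ u ∈ (R.erase i).powerset, (-1 : ℝ[X]) ^ u.card *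
          ∏ w ∈ W, ((c w - C (a w i)) - C (∑ j ∈ u, a w j))) := by
      have step : ∀ i ∈ R, C (a w0 i) * (∑ u ∈ (R.erase i).powerset, (-1 : ℝ[X]) ^ u.card *
          ∏ w ∈ W, ((c w - C (a w i)) - C (∑ j ∈ u, a w j))) =
          - ∑ u ∈ R.powerset, (if i ∈ u then C (a w0 i) else 0) * ((-1 : ℝ[X]) ^ u.card *
          ∏ w ∈ W, (c w - C (∑ j ∈ u, a w j))) := by
        intro i hi
        have hR : R = insert i (R.erase i) := (Finset.insert_erase hi).symm
        conv_rhs => rw [hR]
        rw [Finset.sum_powerset_insert (Finset.notMem_erase i R)]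
        have z1 : ∑ t ∈ (R.erase i).powerset, (if i ∈ t then C (a w0 i) else 0) *
            ((-1 : ℝ[X]) ^ t.card * ∏ w ∈ W, (c w - C (∑ j ∈ t, a w j))) = 0 := by
          refine Finset.sum_eq_zero fun t ht => ?_
          rw [Finset.mem_powerset] at ht
          have : i ∉ t := fun h => Finset.notMem_erase i R (ht h)
          rw [if_neg this, zero_mul]
        rw [z1, zero_add, Finset.mul_sum, ← Finset.sum_neg_distrib]
        refine Finset.sum_congr rfl fun t ht => ?_
        rw [Finset.mem_powerset] at ht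
        have hit : i ∉ t := fun h => Finset.notMem_erase i R (ht h)
        rw [if_pos (Finset.mem_insert_self i t), Finset.card_insert_of_notMem hit]
        have : ∀ w, c w - C (∑ j ∈ insert i t, a w j) = c w - C (a w i) - C (∑ j ∈ t, a w j) := by
          intro w
          rw [Finset.sum_insert hit, C_add]
          ring
        simp_rw [this]
        ring
      rw [Finset.sum_congr rfl step, Finset.sum_neg_distrib, Finset.sum_comm, Finset.mul_sum,
        ← Finset.sum_neg_distrib, ← Finset.sum_add_distrib]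
      refine Finset.sum_congr rfl fun u hu => ?_
      rw [Finset.mem_powerset] at hu
      rw [Finset.prod_insert hw0, ← Finset.sum_mul]
      have : ∑ i ∈ R, (if i ∈ u then C (a w0 i) else 0) = C (∑ i ∈ u, a w0 i) := by
        rw [← Finset.sum_filter, map_sum]
        refine Finset.sum_congr ?_ fun _ _ => rfl
        ext i
        simp only [Finset.mem_filter]
        exact ⟨fun h => h.2, fun h => ⟨hu h, h⟩⟩
      rw [this]
      ring
    rw [key]
    refine (Polynomial.degree_add_le _ _).trans_lt (max_lt ?_ ?_)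
    · -- first term
      rcases Nat.eq_zero_or_pos m with rfl | hmpos
      · have h := ih R c hc 0 (by omega)
        have h0 : (∑ u ∈ R.powerset, (-1 : ℝ[X]) ^ u.card *
            ∏ w ∈ W, (c w - C (∑ i ∈ u, a w i))) = 0 := by
          rw [← Polynomial.degree_eq_bot]
          exact Nat.WithBot.lt_zero_iff.mp (by simpa using h)
        rw [h0, mul_zero, Polynomial.degree_zero]
        exact WithBot.bot_lt_coe _
      · have h := ih R c hc (m - 1) (by omega)
        rw [Polynomial.degree_mul]
        by_cases hz : (∑ u ∈ R.powerset, (-1 : ℝ[X]) ^ u.card *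
            ∏ w ∈ W, (c w - C (∑ i ∈ u, a w i))) = 0
        · rw [hz, Polynomial.degree_zero, WithBot.add_bot]
          exact WithBot.bot_lt_coe _
        · rw [Polynomial.degree_eq_natDegree hz] at h ⊢
          by_cases hcz : c w0 = 0
          · rw [hcz, Polynomial.degree_zero, WithBot.bot_add]
            exact WithBot.bot_lt_coe _
          · rw [Polynomial.degree_eq_natDegree hcz]
            have h1 := hc w0
            have h2 : (∑ u ∈ R.powerset, (-1 : ℝ[X]) ^ u.card *
              ∏ w ∈ W, (c w - C (∑ i ∈ u, a w i))).natDegree < m - 1 := by exact_mod_cast h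
            have h3 : (c w0).natDegree + (∑ u ∈ R.powerset, (-1 : ℝ[X]) ^ u.card *
              ∏ w ∈ W, (c w - C (∑ i ∈ u, a w i))).natDegree < m := by omega
            exact_mod_cast h3
    · refine (Polynomial.degree_sum_le _ _).trans_lt ?_
      rw [Finset.sup_lt_iff (WithBot.bot_lt_coe _)]
      intro i hi
      have h := ih (R.erase i) (fun w => c w - C (a w i)) (fun w => by
        refine (Polynomial.natDegree_sub_le _ _).trans ?_
        rw [Polynomial.natDegree_C]
        exact max_le (hc w) (by norm_num)) m (by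
          rw [Finset.card_erase_of_mem hi]
          have : 0 < R.card := Finset.card_pos.mpr ⟨i, hi⟩
          omega)
      refine lt_of_le_of_lt ?_ h
      rw [Polynomial.degree_mul]
      by_cases hz : a w0 i = 0
      · rw [hz, C_0, Polynomial.degree_zero, WithBot.bot_add]
        exact bot_le
      · rw [Polynomial.degree_C hz, zero_add]

theorem sum_sub_range (m : ℕ) : ∑ i ∈ Finset.range m, (m - i) = (m + 1).choose 2 := by
  induction m with
  | zero => rfl
  | succ m ih =>
    rw [Finset.sum_range_succ']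
    have : ∀ i, m + 1 - (i + 1) = m - i := fun i => by omega
    simp_rw [this]
    rw [ih, Nat.choose_succ_succ' (m + 1) 1, Nat.choose_one_right]
    simp only [Nat.sub_zero, Nat.reduceAdd]
    ring

/-- The polynomial lemma: `W` is a family of affine functions `∑ i ∈ u, a w i + lam w * y` on
`{0,1}^R × {0,…,k-1}`; every `(u, 0)`, `u ≠ ∅`, is hit and every `(u, t)`, `1 ≤ t < k`, is hit
`k - t` times.  Then `|W| ≥ |R| + C(k,2)`. -/
theorem star_poly (R : Finset ρ) (W : Finset ω) (a : ω → ρ → ℝ) (lam : ω → ℝ) (k : ℕ)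
    (h1 : ∀ u ⊆ R, u.Nonempty → ∃ w ∈ W, ∑ i ∈ u, a w i = 1)
    (h2 : ∀ u ⊆ R, ∀ t : ℕ, 1 ≤ t → t < k →
      k - t ≤ (W.filter (fun w => ∑ i ∈ u, a w i + lam w * t = 1)).card) :
    R.card + k.choose 2 ≤ W.card := by
  classical
  by_contra hcon
  push Not at hcon
  set c : ω → ℝ[X] := fun w => C 1 - C (lam w) * X with hc
  have hcdeg : ∀ w, (c w).natDegree ≤ 1 := by
    intro w
    simp only [hc]
    refine (Polynomial.natDegree_sub_le _ _).trans ?_
    refine max_le ?_ ?_
    · rw [Polynomial.natDegree_C]; norm_num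
    · exact (Polynomial.natDegree_C_mul_le _ _).trans Polynomial.natDegree_X_le
  set G : Finset ρ → ℝ[X] := fun u => ∏ w ∈ W, (c w - C (∑ i ∈ u, a w i)) with hG
  set P : ℝ[X] := ∑ u ∈ R.powerset, (-1 : ℝ[X]) ^ u.card * G u with hP
  have hPdeg : P.degree < ((k.choose 2 : ℕ) : WithBot ℕ) :=
    altsum_degree a W R c hcdeg (k.choose 2) hcon
  set q : ℝ[X] := ∏ t ∈ Finset.Ico 1 k, (X - C (t : ℝ)) ^ (k - t) with hq
  have hqG : ∀ u ⊆ R, q ∣ G u := by
    intro u hu
    rw [hq]
    refine Finset.prod_dvd_of_coprime ?_ ?_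
    · intro s hs t ht hst
      refine IsCoprime.pow ?_
      refine Polynomial.isCoprime_X_sub_C_of_isUnit_sub ?_
      rw [isUnit_iff_ne_zero, sub_ne_zero]
      exact_mod_cast hst
    · intro t ht
      rw [Finset.mem_Ico] at ht
      have hcard := h2 u hu t ht.1 ht.2
      set T := W.filter (fun w => ∑ i ∈ u, a w i + lam w * t = 1) with hT
      have hd1 : (X - C (t : ℝ)) ^ T.card ∣ ∏ w ∈ T, (c w - C (∑ i ∈ u, a w i)) := by
        rw [← Finset.prod_const]
        refine Finset.prod_dvd_prod_of_dvd _ _ fun w hw => ?_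
        rw [hT, Finset.mem_filter] at hw
        rw [Polynomial.dvd_iff_isRoot]
        simp only [hc, Polynomial.IsRoot, Polynomial.eval_sub, Polynomial.eval_mul,
          Polynomial.eval_C, Polynomial.eval_X]
        linarith [hw.2]
      have hd2 : ∏ w ∈ T, (c w - C (∑ i ∈ u, a w i)) ∣ G u :=
        Finset.prod_dvd_prod_of_subset _ _ _ (Finset.filter_subset _ _)
      exact ((pow_dvd_pow _ hcard).trans hd1).trans hd2
  have hqP : q ∣ P := Finset.dvd_sum fun u hu =>
    Dvd.dvd.mul_left (hqG u (Finset.mem_powerset.mp hu)) _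
  have hqdeg : q.degree = ((k.choose 2 : ℕ) : WithBot ℕ) := by
    have hm : q.Monic := by
      rw [hq]
      exact Polynomial.monic_prod_of_monic _ _ fun t _ => (Polynomial.monic_X_sub_C _).pow _
    rw [Polynomial.degree_eq_natDegree hm.ne_zero, hq,
      Polynomial.natDegree_prod_of_monic _ _ fun t _ => (Polynomial.monic_X_sub_C _).pow _]
    have : ∀ t ∈ Finset.Ico 1 k, ((X - C (t : ℝ)) ^ (k - t)).natDegree = k - t := by
      intro t _
      rw [Polynomial.natDegree_pow, Polynomial.natDegree_X_sub_C, mul_one]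
    rw [Finset.sum_congr rfl this]
    have hs : ∑ t ∈ Finset.Ico 1 k, (k - t) = k.choose 2 := by
      rcases Nat.eq_zero_or_pos k with rfl | hk
      · simp
      · obtain ⟨m, rfl⟩ : ∃ m, k = m + 1 := ⟨k - 1, by omega⟩
        rw [Finset.sum_Ico_eq_sum_range]
        have : ∀ i, m + 1 - (1 + i) = m - i := fun i => by omega
        simp_rw [this]
        exact sum_sub_range m
    rw [hs]
  have hP0 : P = 0 := by
    refine Polynomial.eq_zero_of_dvd_of_degree_lt hqP ?_
    rw [hqdeg]
    exact hPdeg
  have hev : P.eval 0 = 1 := by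
    rw [hP, Polynomial.eval_finsetSum, Finset.sum_eq_single ∅]
    · simp [hG, hc, Polynomial.eval_prod]
    · intro u hu hne
      rw [Finset.mem_powerset] at hu
      obtain ⟨w, hw, hw1⟩ := h1 u hu (Finset.nonempty_iff_ne_empty.mpr hne)
      rw [Polynomial.eval_mul, hG, Polynomial.eval_prod, Finset.prod_eq_zero hw, mul_zero]
      simp [hc, hw1]
    · intro h
      exact absurd (Finset.empty_mem_powerset R) h
  rw [hP0, Polynomial.eval_zero] at hev
  exact zero_ne_one hev

end Pool.Agent.Helper66.AC
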