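import Mathlib
import Pool.Agent.Helper66.AC.Main

set_option autoImplicit false

open Finset

namespace Pool.Agent.Helper66.AC.GraphLikeOld

/-- `H` is an affine hyperplane of `ℝⁿ`. -/
def IsHyperplane {n : ℕ} (H : Set (Fin n → ℝ)) : Prop :=
  ∃ (b : Fin n → ℝ) (c : ℝ), b ≠ 0 ∧ H = {x | ∑ i, b i * x i = c}

/-- `v` is a vertex of the cube `{0,1}ⁿ`. -/
def IsCubePoint {n : ℕ} (v : Fin n → ℝ) : Prop := ∀ i, v i = 0 ∨ v i = 1

/-- The family `H 0, …, H (N-1)` (repetitions allowed) is an almost `k`-cover of `{0,1}ⁿ` of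
size `N`. -/
structure IsAlmostCover (n k N : ℕ) (H : Fin N → Set (Fin n → ℝ)) : Prop where
  hyperplane : ∀ j, IsHyperplane (H j)
  avoids_zero : ∀ j, (0 : Fin n → ℝ) ∉ H j
  covers : ∀ v, IsCubePoint v → v ≠ 0 → k ≤ Nat.card {j // v ∈ H j}

/-- The hyperplanes `x_i = 1` and `x_i + x_j = 1` (`i ≠ j`). -/
def IsSimple {n : ℕ} (H : Set (Fin n → ℝ)) : Prop :=
  (∃ i, H = {x | x i = 1}) ∨ ∃ i j, i ≠ j ∧ H = {x | x i + x j = 1}

section aux

variable {n : ℕ}

/-- a hyperplane avoiding the origin -/
theorem exists_vec {H : Set (Fin n → ℝ)} (h : IsHyperplane H) (h0 : (0 : Fin n → ℝ) ∉ H) :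
    ∃ b : Fin n → ℝ, H = {x | ∑ i, b i * x i = 1} := by
  obtain ⟨b, c, -, rfl⟩ := h
  have hc : c ≠ 0 := by
    intro hc
    apply h0
    simp [hc]
  refine ⟨fun i => b i / c, ?_⟩
  ext x
  simp only [Set.mem_ofPred_eq]
  have : ∑ i, b i / c * x i = (∑ i, b i * x i) / c := by
    rw [Finset.sum_div]
    exact Finset.sum_congr rfl fun i _ => by ring
  rw [this, div_eq_one_iff_eq hc]

/-- the homogeneous vector -/
noncomputable def hv (b : Fin n → ℝ) : Option (Fin n) → ℝ
  | none => 2 - ∑ i, b i
  | some i => b i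

theorem hv_sum (b : Fin n → ℝ) : ∑ o, hv b o = 2 := by
  rw [Fintype.sum_option]
  simp [hv]

theorem hv_sum_none {b : Fin n → ℝ} {X : Finset (Option (Fin n))} (hX : none ∉ X) :
    ∑ o ∈ X, hv b o = ∑ i, b i * (if some i ∈ X then 1 else 0) := by
  have h1 : ∑ o ∈ X, hv b o = ∑ o : Option (Fin n), if o ∈ X then hv b o else 0 := by
    rw [Finset.sum_ite_mem, Finset.univ_inter]
  rw [h1, Fintype.sum_option, if_neg hX, zero_add]
  refine Finset.sum_congr rfl fun i _ => ?_
  simp [hv]

/-- data for simple hyperplanes -/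
theorem exists_vec_simple {H : Set (Fin n → ℝ)} (h : IsSimple H) :
    ∃ (b : Fin n → ℝ) (p q : Option (Fin n)), H = {x | ∑ i, b i * x i = 1} ∧
      ∀ X : Finset (Option (Fin n)), ∑ o ∈ X, hv b o =
        (if p ∈ X then 1 else 0) + (if q ∈ X then 1 else 0) := by
  have key : ∀ (b : Fin n → ℝ) (p q : Option (Fin n)),
      (∀ o, hv b o = (if o = p then 1 else 0) + (if o = q then 1 else 0)) →
      ∀ X : Finset (Option (Fin n)), ∑ o ∈ X, hv b o =
        (if p ∈ X then 1 else 0) + (if q ∈ X then 1 else 0) := by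
    intro b p q h X
    simp_rw [h]
    rw [Finset.sum_add_distrib, Finset.sum_ite_eq', Finset.sum_ite_eq']
  rcases h with ⟨i, rfl⟩ | ⟨i, j, hij, rfl⟩
  · refine ⟨fun m => if m = i then 1 else 0, none, some i, ?_, key _ _ _ ?_⟩
    · ext x
      simp
    · intro o
      cases o with
      | none => simp [hv]; norm_num
      | some m => simp [hv]
  · refine ⟨fun m => (if m = i then 1 else 0) + (if m = j then 1 else 0), some i, some j, ?_,
      key _ _ _ ?_⟩
    · ext x
      simp [add_mul, Finset.sum_add_distrib]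
    · intro o
      cases o with
      | none => simp [hv, Finset.sum_add_distrib]; norm_num
      | some m => simp [hv]

end aux

/-- **Theorem.**  For all `k ≥ 1` and `d` there is `n₀` such that for `n ≥ n₀` every almost
`k`-cover of `{0,1}ⁿ` in which at most `d` members are not of the form `x_i = 1` or
`x_i + x_j = 1` has at least `n + C(k,2)` members. -/
theorem result (k : ℕ) (hk : 1 ≤ k) (d : ℕ) : ∃ n₀ : ℕ, ∀ n : ℕ, n₀ ≤ n →
    ∀ (N : ℕ) (H : Fin N → Set (Fin n → ℝ)), IsAlmostCover n k N H →
      Nat.card {j // ¬ IsSimple (H j)} ≤ d → n + k.choose 2 ≤ N := by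
  classical
  -- the general set-up
  have setup : ∀ (n N : ℕ) (H : Fin N → Set (Fin n → ℝ)), IsAlmostCover n k N H →
      ∃ (b : Fin N → Fin n → ℝ) (p q : Fin N → Option (Fin n)),
        (∀ j, H j = {x | ∑ i, b j i * x i = 1}) ∧
        (∀ j, IsSimple (H j) → ∀ X : Finset (Option (Fin n)), ∑ o ∈ X, hv (b j) o =
          (if p j ∈ X then 1 else 0) + (if q j ∈ X then 1 else 0)) ∧
        (∀ u : Finset (Fin n), u.Nonempty →
          k ≤ (univ.filter (fun j => ∑ i ∈ u, b j i = 1)).card) := by
    intro n N H hH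
    have hex : ∀ j, ∃ (b : Fin n → ℝ) (p q : Option (Fin n)), H j = {x | ∑ i, b i * x i = 1} ∧
        (IsSimple (H j) → ∀ X : Finset (Option (Fin n)), ∑ o ∈ X, hv b o =
          (if p ∈ X then 1 else 0) + (if q ∈ X then 1 else 0)) := by
      intro j
      by_cases hs : IsSimple (H j)
      · obtain ⟨b, p, q, h1, h2⟩ := exists_vec_simple hs
        exact ⟨b, p, q, h1, fun _ => h2⟩
      · obtain ⟨b, hb⟩ := exists_vec (hH.hyperplane j) (hH.avoids_zero j)
        exact ⟨b, none, none, hb, fun h => absurd h hs⟩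
    choose b p q hb1 hb2 using hex
    refine ⟨b, p, q, hb1, hb2, ?_⟩
    intro u hu
    set v : Fin n → ℝ := fun i => if i ∈ u then 1 else 0 with hv'
    have hv0 : v ≠ 0 := by
      obtain ⟨i, hi⟩ := hu
      intro h
      have := congrFun h i
      simp [hv', hi] at this
    have h1 := hH.covers v (fun i => by
      by_cases hi : i ∈ u
      · right; simp [hv', hi]
      · left; simp [hv', hi]) hv0
    rw [Nat.card_eq_fintype_card, Fintype.card_subtype] at h1
    refine h1.trans (Finset.card_le_card ?_)
    intro j hj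
    rw [Finset.mem_filter] at hj ⊢
    refine ⟨Finset.mem_univ _, ?_⟩
    have h2 := hj.2
    rw [hb1 j, Set.mem_ofPred_eq] at h2
    rw [← h2]
    simp [hv']
  rcases Nat.lt_or_ge k 3 with hk3 | hk3
  · -- k = 1, 2
    refine ⟨1, ?_⟩
    intro n hn N H hH _
    obtain ⟨b, -, -, -, -, hcov⟩ := setup n N H hH
    have hne : (univ : Finset (Fin n)).Nonempty := ⟨⟨0, hn⟩, Finset.mem_univ _⟩
    obtain ⟨j0, -⟩ := Finset.card_pos.mp (lt_of_lt_of_le (by omega) (hcov _ hne))
    rcases Nat.lt_or_ge k 2 with hk2 | hk2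
    · have hk1 : k = 1 := by omega
      subst hk1
      have := Pool.Agent.Helper66.AC.star_poly (univ : Finset (Fin n)) (univ : Finset (Fin N)) b
        (fun _ => 0) 1 (fun u _ hu => by
          obtain ⟨j, hj⟩ := Finset.card_pos.mp (lt_of_lt_of_le (by omega) (hcov u hu))
          exact ⟨j, Finset.mem_univ _, (Finset.mem_filter.mp hj).2⟩)
        (fun u _ t ht1 ht2 => by omega)
      simpa using this
    · have hk2' : k = 2 := by omega
      subst hk2'
      have := Pool.Agent.Helper66.AC.star_poly (univ : Finset (Fin n))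
        ((univ : Finset (Fin N)).erase j0) b (fun _ => 0) 1 (fun u _ hu => by
          have h1 := hcov u hu
          have h2 : 0 < ((univ.filter (fun j => ∑ i ∈ u, b j i = 1)).erase j0).card := by
            have := Finset.pred_card_le_card_erase
              (s := univ.filter (fun j => ∑ i ∈ u, b j i = 1)) (a := j0)
            omega
          obtain ⟨j, hj⟩ := Finset.card_pos.mp h2
          rw [Finset.mem_erase, Finset.mem_filter] at hj
          exact ⟨j, Finset.mem_erase.mpr ⟨hj.1, Finset.mem_univ _⟩, hj.2.2⟩)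
        (fun u _ t ht1 ht2 => by omega)
      rw [Finset.card_erase_of_mem (Finset.mem_univ _)] at this
      simp only [Finset.card_univ, Fintype.card_fin] at this
      have hN : 0 < N := j0.pos
      have h2 : Nat.choose 2 2 = 1 := rfl
      have h1 : Nat.choose 1 2 = 0 := rfl
      omega
  · -- k ≥ 3
    obtain ⟨n0, hn0⟩ := Pool.Agent.Helper66.AC.main k d hk3
    refine ⟨n0, ?_⟩
    intro n hn N H hH hd
    obtain ⟨b, p, q, hb1, hb2, hcov⟩ := setup n N H hH
    have hcov' : ∀ X : Finset (Option (Fin n)), none ∉ X → X.Nonempty →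
        k ≤ (univ.filter (fun j => ∑ o ∈ X, hv (b j) o = 1)).card := by
      intro X hX hne
      have hne' : (univ.filter (fun i : Fin n => some i ∈ X)).Nonempty := by
        obtain ⟨o, ho⟩ := hne
        cases o with
        | none => exact absurd ho hX
        | some i => exact ⟨i, by simp [ho]⟩
      refine (hcov _ hne').trans (Finset.card_le_card ?_)
      intro j hj
      rw [Finset.mem_filter] at hj ⊢
      refine ⟨Finset.mem_univ _, ?_⟩
      rw [hv_sum_none hX]
      have h3 := hj.2
      rw [Finset.sum_filter] at h3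
      refine Eq.trans ?_ h3
      exact Finset.sum_congr rfl fun i _ => by by_cases h : some i ∈ X <;> simp [h]
    let A : Pool.Agent.Helper66.AC.Cov (Option (Fin n)) (Fin N) k :=
      { a := fun j => hv (b j)
        cov := by
          intro X hne huniv
          by_cases hX : none ∈ X
          · have h1 := hcov' Xᶜ (by simp [hX]) (by
              rw [Finset.nonempty_iff_ne_empty]
              intro h
              exact huniv (Finset.compl_eq_empty_iff X |>.mp h))
            refine h1.trans (Finset.card_le_card ?_)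
            intro j hj
            rw [Finset.mem_filter] at hj ⊢
            refine ⟨Finset.mem_univ _, ?_⟩
            have h2 := Finset.sum_add_sum_compl X (hv (b j))
            rw [hv_sum] at h2
            linarith [hj.2]
          · exact hcov' X hX hne
        E := univ.filter (fun j => IsSimple (H j))
        p := p
        q := q
        edge := by
          intro j hj X
          exact hb2 j (Finset.mem_filter.mp hj).2 X }
    have hA := hn0 A (by
      rw [Nat.card_eq_fintype_card, Fintype.card_subtype] at hd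
      have : A.Eᶜ = univ.filter (fun j => ¬ IsSimple (H j)) := by
        ext j
        simp [A]
      rw [this]
      exact hd) (by rw [Fintype.card_option, Fintype.card_fin]; omega)
    rw [Fintype.card_option, Fintype.card_fin, Fintype.card_fin] at hA
    omega

end Pool.Agent.Helper66.AC.GraphLikeOld
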