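import Pool.Agent.Helper66.AC.Quot

/-!
MP_1bf996_co (almost k-covers of the cube): the path case and the graph dichotomy.
-/

open Finset

namespace Pool.Agent.Helper66.AC

variable {V ι : Type} [Fintype V] [DecidableEq V] [Fintype ι] [DecidableEq ι]
variable {k : ℕ} (A : Cov V ι k)

namespace Cov

/-- The path case. -/
theorem path_case (hk : 3 ≤ k) (d : ℕ) (hd : A.Eᶜ.card ≤ d) (φ : V → V) (hφ : A.Good φ)
    (l : ℕ) (t : ℕ → V) (ht : ∀ i ≤ l, φ (t i) = t i)
    (hinj : ∀ i ≤ l, ∀ j ≤ l, t i = t j → i = j)
    (hδ : ∀ i < l, ∃ j ∈ A.E, (φ (A.p j) = t i ∧ φ (A.q j) = t (i + 1)) ∨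
      (φ (A.p j) = t (i + 1) ∧ φ (A.q j) = t i))
    (hall : ∀ j ∈ A.E, φ (A.p j) ≠ φ (A.q j) → φ (A.p j) ∈ (range (l + 1)).image t ∧
      φ (A.q j) ∈ (range (l + 1)).image t)
    (hN : Fintype.card ι + 1 < Fintype.card V + k.choose 2) :
    l ≤ 2 ^ (d + k.choose 2) := by
  classical
  rcases Nat.eq_zero_or_pos l with rfl | hlpos
  · exact Nat.zero_le _
  have hιne : Nonempty ι := by
    obtain ⟨j, -, -⟩ := hδ 0 hlpos
    exact ⟨j⟩
  set T := (range (l + 1)).image t with hT
  set R := rest φ T with hR
  have htT : ∀ i ≤ l, t i ∈ T := fun i hi => by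
    rw [hT, Finset.mem_image]; exact ⟨i, Finset.mem_range.mpr (by omega), rfl⟩
  have hTc : ∃ v ∈ T, φ v = v := ⟨t 0, htT 0 (Nat.zero_le _), ht 0 (Nat.zero_le _)⟩
  have hRd : R.card ≤ d := (A.rest_card (by omega) hTc hall).trans hd
  choose! δ hδE hδ' using hδ
  set D := (range l).image δ with hD
  have hδinj : Set.InjOn δ (range l) := by
    intro i hi i' hi' heq
    simp only [Finset.coe_range, Set.mem_Iio] at hi hi'
    rcases hδ' i hi with ⟨h1, h2⟩ | ⟨h1, h2⟩ <;> rcases hδ' i' hi' with ⟨h3, h4⟩ | ⟨h3, h4⟩ <;>
      rw [heq] at h1 h2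
    · exact hinj i (by omega) i' (by omega) (h1.symm.trans h3)
    · have e1 := hinj i (by omega) (i' + 1) (by omega) (h1.symm.trans h3)
      have e2 := hinj (i + 1) (by omega) i' (by omega) (h2.symm.trans h4)
      omega
    · have e1 := hinj (i + 1) (by omega) i' (by omega) (h1.symm.trans h3)
      have e2 := hinj i (by omega) (i' + 1) (by omega) (h2.symm.trans h4)
      omega
    · exact hinj i (by omega) i' (by omega) (h2.symm.trans h4)
  have hDc : D.card = l := by rw [hD, Finset.card_image_of_injOn hδinj, Finset.card_range]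
  have hDk : Disjoint (A.killed φ) D := by
    rw [Finset.disjoint_left]
    intro j hj hjD
    rw [hD, Finset.mem_image] at hjD
    obtain ⟨i, hi, rfl⟩ := hjD
    rw [Finset.mem_range] at hi
    rw [killed, Finset.mem_filter] at hj
    rcases hδ' i hi with ⟨h1, h2⟩ | ⟨h1, h2⟩
    · rw [h1, h2] at hj
      have := hinj i (by omega) (i + 1) (by omega) hj.2
      omega
    · rw [h1, h2] at hj
      have := hinj (i + 1) (by omega) i (by omega) hj.2
      omega
  set W := (A.killed φ ∪ D)ᶜ with hW
  have hWc : W.card + (A.killed φ).card + l = Fintype.card ι := by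
    have h1 := Finset.card_compl_add_card (A.killed φ ∪ D)
    rw [Finset.card_union_of_disjoint hDk, hDc] at h1
    rw [← hW] at h1
    omega
  have hTcard : T.card = l + 1 := by
    rw [hT, Finset.card_image_of_injOn, Finset.card_range]
    intro i hi j hj hij
    simp only [Finset.coe_range, Set.mem_Iio] at hi hj
    exact hinj i (by omega) j (by omega) hij
  have himg : (univ.image φ).card = l + 1 + R.card := by
    have hsub : T ⊆ univ.image φ := by
      intro x hx
      rw [hT, Finset.mem_image] at hx
      obtain ⟨i, hi, rfl⟩ := hx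
      rw [Finset.mem_range] at hi
      rw [Finset.mem_image]
      exact ⟨t i, Finset.mem_univ _, ht i (by omega)⟩
    have h1 := Finset.card_sdiff_add_card_eq_card hsub
    have h3 : R.card = (univ.image φ \ T).card := rfl
    omega
  have hcount := hφ.count
  have hWlt : W.card < R.card + k.choose 2 := by omega
  have hpar := parity W l (fun i w => ∑ s ∈ range (i + 1), qv A.a φ w (t s)) (by
    intro i j hij hjl
    set X := (Finset.Ioc i j).image t with hX
    have hmem : ∀ s ≤ l, (t s ∈ X ↔ i < s ∧ s ≤ j) := by
      intro s hs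
      rw [hX, Finset.mem_image]
      constructor
      · rintro ⟨s', hs', heq⟩
        rw [Finset.mem_Ioc] at hs'
        have := hinj s' (by omega) s hs heq
        subst this
        exact hs'
      · intro h
        exact ⟨s, Finset.mem_Ioc.mpr h, rfl⟩
    have hcov := A.qcov φ X ⟨t j, by rw [ht j (by omega), hmem j (by omega)]; omega⟩
      ⟨t 0, by rw [ht 0 (by omega), hmem 0 (by omega)]; omega⟩
    have hex : ∃ w, w ∈ W ∧ ∑ x ∈ X, qv A.a φ w x = 1 := by
      by_contra hcon
      push Not at hcon
      have hsub : univ.filter (fun w => ∑ x ∈ X, qv A.a φ w x = 1) ⊆ {δ i, δ j} := by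
        intro w hw
        rw [Finset.mem_filter] at hw
        have hwW : w ∉ W := fun h => hcon w h hw.2
        rw [hW, Finset.mem_compl, not_not, Finset.mem_union] at hwW
        rcases hwW with h | h
        · exact absurd hw.2 (A.killed_ne φ h _)
        · rw [hD, Finset.mem_image] at h
          obtain ⟨s, hs, rfl⟩ := h
          rw [Finset.mem_range] at hs
          have hw2 := hw.2
          rw [A.qedge φ (hδE s hs)] at hw2
          have hs12 : s = i ∨ s = j := by
            by_contra hne
            push Not at hne
            have m1 := hmem s (by omega)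
            have m2 := hmem (s + 1) (by omega)
            have hiff : t s ∈ X ↔ t (s + 1) ∈ X := by
              rw [m1, m2]
              constructor
              · rintro ⟨h1, h2⟩
                exact ⟨by omega, by omega⟩
              · rintro ⟨h1, h2⟩
                exact ⟨by omega, by omega⟩
            rcases hδ' s hs with ⟨h1, h2⟩ | ⟨h1, h2⟩
            · rw [h1, h2] at hw2
              by_cases hX1 : t s ∈ X
              · rw [if_pos hX1, if_pos (hiff.mp hX1)] at hw2
                norm_num at hw2
              · rw [if_neg hX1, if_neg (fun h => hX1 (hiff.mpr h))] at hw2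
                norm_num at hw2
            · rw [h1, h2] at hw2
              by_cases hX1 : t s ∈ X
              · rw [if_pos hX1, if_pos (hiff.mp hX1)] at hw2
                norm_num at hw2
              · rw [if_neg hX1, if_neg (fun h => hX1 (hiff.mpr h))] at hw2
                norm_num at hw2
          rcases hs12 with rfl | rfl
          · exact Finset.mem_insert_self _ _
          · exact Finset.mem_insert_of_mem (Finset.mem_singleton_self _)
      have h1 := Finset.card_le_card hsub
      have h2 : ({δ i, δ j} : Finset ι).card ≤ 2 := Finset.card_le_two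
      omega
    obtain ⟨w, hw, hw1⟩ := hex
    refine ⟨w, hw, ?_⟩
    rw [← hw1, hX, Finset.sum_image]
    · have h3 := Finset.sum_Ico_eq_sub (fun s => qv A.a φ w (t s)) (show i + 1 ≤ j + 1 by omega)
      have h4 : Finset.Ioc i j = Finset.Ico (i + 1) (j + 1) := by
        ext s
        simp only [Finset.mem_Ioc, Finset.mem_Ico]
        omega
      rw [h4, h3]
    · intro s hs s' hs' heq
      simp only [Finset.coe_Ioc, Set.mem_Ioc] at hs hs'
      exact hinj s (by omega) s' (by omega) heq)
  refine hpar.trans (Nat.pow_le_pow_right (by norm_num) (by omega))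

end Cov

end Pool.Agent.Helper66.AC
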