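import Mathlib

/-!
MP_1bf996_co (almost k-covers of the cube): the selection lemma and the parity lemma.
-/

open Finset

namespace Pool.Agent.Helper66.AC

/-- Selection lemma: in a large set `L` one finds `k` elements on which each of the functions
`h j` is constant or generic with respect to the forbidden sums `F j`. -/
theorem sel (k r : ℕ) : ∀ g : ℕ, ∃ n1 : ℕ, ∀ {α β : Type} [DecidableEq α] [DecidableEq β]
    (L : Finset α) (J : Finset β) (h : β → α → ℝ) (F : β → Finset ℝ),
    n1 ≤ L.card → J.card ≤ g → (∀ j ∈ J, (F j).card ≤ r) →
    ∃ S ⊆ L, S.card = k ∧ ∀ j ∈ J, (∃ l : ℝ, ∀ i ∈ S, h j i = l) ∨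
      (∀ w ⊆ S, w.Nonempty → ∑ i ∈ w, h j i ∉ F j) := by
  intro g
  induction g with
  | zero =>
    refine ⟨k, ?_⟩
    intro α β _ _ L J h F hL hJ _
    obtain ⟨S, hS, hc⟩ := Finset.exists_subset_card_eq hL
    refine ⟨S, hS, hc, ?_⟩
    have : J = ∅ := Finset.card_eq_zero.mp (Nat.le_zero.mp hJ)
    subst this
    intro j hj
    simp at hj
  | succ g ih =>
    obtain ⟨m, hm⟩ := ih
    refine ⟨k + (g + 1) * (2 ^ k * (r * m)) + 1, ?_⟩
    intro α β _ _ L J h F hL hJ hF
    by_cases hcase : ∃ j ∈ J, ∃ l : ℝ, m ≤ (L.filter (fun i => h j i = l)).card
    · -- one of the functions is constant on a large set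
      obtain ⟨j, hj, l, hl⟩ := hcase
      obtain ⟨S, hS, hc, hall⟩ := hm (L.filter (fun i => h j i = l)) (J.erase j) h F hl
        (by rw [Finset.card_erase_of_mem hj]; omega)
        (fun j' hj' => hF j' (Finset.mem_of_mem_erase hj'))
      refine ⟨S, hS.trans (Finset.filter_subset _ _), hc, ?_⟩
      intro j' hj'
      by_cases hjj : j' = j
      · left
        refine ⟨l, fun i hi => ?_⟩
        rw [hjj]
        exact (Finset.mem_filter.mp (hS hi)).2
      · exact hall j' (Finset.mem_erase.mpr ⟨hjj, hj'⟩)
    · push Not at hcase
      -- greedy choice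
      have greedy : ∀ s ≤ k, ∃ S ⊆ L, S.card = s ∧ ∀ j ∈ J, ∀ w ⊆ S, w.Nonempty →
          ∑ i ∈ w, h j i ∉ F j := by
        intro s
        induction s with
        | zero =>
          intro _
          refine ⟨∅, Finset.empty_subset _, rfl, ?_⟩
          intro j _ w hw hne
          exact absurd (Finset.subset_empty.mp hw) hne.ne_empty
        | succ s ihs =>
          intro hs
          obtain ⟨S, hSL, hSc, hS⟩ := ihs (by omega)
          set bad : Finset α := S ∪ J.biUnion (fun j => S.powerset.biUnion (fun w =>
            (F j).biUnion (fun f => L.filter (fun i => h j i = f - ∑ i' ∈ w, h j i')))) with hbad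
          have hbadc : bad.card ≤ s + (g + 1) * (2 ^ k * (r * m)) := by
            refine (Finset.card_union_le _ _).trans ?_
            rw [hSc]
            refine Nat.add_le_add_left ?_ _
            refine (Finset.card_biUnion_le_card_mul J _ (2 ^ k * (r * m)) ?_).trans
              (Nat.mul_le_mul_right _ hJ)
            intro j hj
            refine (Finset.card_biUnion_le_card_mul S.powerset _ (r * m) ?_).trans ?_
            · intro w _
              refine (Finset.card_biUnion_le_card_mul (F j) _ m ?_).trans
                (Nat.mul_le_mul_right _ (hF j hj))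
              intro f _
              exact (hcase j hj _).le
            · rw [Finset.card_powerset, hSc]
              exact Nat.mul_le_mul_right _ (Nat.pow_le_pow_right (by norm_num) (by omega))
          have hex : ∃ i ∈ L, i ∉ bad := by
            by_contra hcon
            push Not at hcon
            have := Finset.card_le_card (show L ⊆ bad from fun i hi => hcon i hi)
            omega
          obtain ⟨i, hiL, hib⟩ := hex
          have hiS : i ∉ S := fun h' => hib (Finset.mem_union_left _ h')
          refine ⟨insert i S, Finset.insert_subset hiL hSL, ?_, ?_⟩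
          · rw [Finset.card_insert_of_notMem hiS, hSc]
          · intro j hj w hw hne
            by_cases hiw : i ∈ w
            · intro hcon
              apply hib
              refine Finset.mem_union_right _ ?_
              rw [Finset.mem_biUnion]
              refine ⟨j, hj, ?_⟩
              rw [Finset.mem_biUnion]
              refine ⟨w.erase i, ?_, ?_⟩
              · rw [Finset.mem_powerset]
                intro x hx
                have hx' := hw (Finset.mem_of_mem_erase hx)
                rw [Finset.mem_insert] at hx'
                exact hx'.resolve_left (Finset.ne_of_mem_erase hx)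
              · rw [Finset.mem_biUnion]
                refine ⟨_, hcon, ?_⟩
                rw [Finset.mem_filter]
                refine ⟨hiL, ?_⟩
                rw [← Finset.add_sum_erase w (h j) hiw]
                ring
            · refine hS j hj w ?_ hne
              intro x hx
              have hx' := hw hx
              rw [Finset.mem_insert] at hx'
              refine hx'.resolve_left ?_
              rintro rfl
              exact hiw hx
      obtain ⟨S, hSL, hSc, hS⟩ := greedy k le_rfl
      exact ⟨S, hSL, hSc, fun j hj => Or.inr (hS j hj)⟩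

/-- Parity lemma: if any two of the points `x 0, …, x (m-1)` differ by exactly one in some
coordinate, then `m ≤ 2 ^ #coordinates`. -/
theorem parity {ω : Type} (W : Finset ω) (m : ℕ) (x : ℕ → ω → ℝ)
    (h : ∀ i j, i < j → j < m → ∃ w ∈ W, x j w - x i w = 1) : m ≤ 2 ^ W.card := by
  classical
  have hinj : Set.InjOn (fun i : ℕ => W.filter (fun w => Even ⌊x i w⌋)) (Finset.range m) := by
    intro i hi j hj hij
    simp only [Finset.coe_range, Set.mem_Iio] at hi hj
    by_contra hne
    have key : ∀ i j, i < j → j < m → W.filter (fun w => Even ⌊x i w⌋) ≠
        W.filter (fun w => Even ⌊x j w⌋) := by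
      intro i j hlt hjm heq
      obtain ⟨w, hw, hx⟩ := h i j hlt hjm
      have h1 : x j w = x i w + 1 := by linarith
      have h2 : ⌊x j w⌋ = ⌊x i w⌋ + 1 := by rw [h1, Int.floor_add_one]
      have h3 : w ∈ W.filter (fun w => Even ⌊x i w⌋) ↔ w ∈ W.filter (fun w => Even ⌊x j w⌋) := by
        rw [heq]
      simp only [Finset.mem_filter, hw, true_and] at h3
      rw [h2, Int.even_add_one] at h3
      tauto
    rcases lt_or_gt_of_ne hne with hlt | hlt
    · exact key i j hlt hj hij
    · exact key j i hlt hi hij.symm
  have hc := Finset.card_le_card_of_injOn (s := Finset.range m) (t := W.powerset)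
    (fun i : ℕ => W.filter (fun w => Even ⌊x i w⌋)) (fun i _ => by
      simp only [Finset.coe_powerset, Set.mem_preimage, Set.mem_powerset_iff, Finset.coe_subset]
      exact Finset.filter_subset _ _) hinj
  rwa [Finset.card_range, Finset.card_powerset] at hc

end Pool.Agent.Helper66.AC
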