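import Pool.Agent.Helper66.AC.Poly
import Pool.Agent.Helper66.AC.Sel

/-!
MP_1bf996_co (almost k-covers of the cube): contractions, the star case and the path case.

Homogeneous setting: `V` is the vertex set (the `n` coordinates and one extra vertex), a member of
the cover is a vector `a j : V → ℝ`, a set `X` of vertices is covered by `j` if `∑ v ∈ X, a j v = 1`,
and every nonempty proper subset of `V` is covered at least `k` times.  The members in `E` are
edges `p j, q j`.
-/

open Finset

namespace Pool.Agent.Helper66.AC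

variable {V ι : Type} [Fintype V] [DecidableEq V] [Fintype ι] [DecidableEq ι]

/-- The quotient vector. -/
noncomputable def qv (a : ι → V → ℝ) (φ : V → V) (j : ι) (i : V) : ℝ :=
  ∑ v ∈ univ.filter (fun v => φ v = i), a j v

omit [Fintype ι] [DecidableEq ι] in
theorem sum_qv (a : ι → V → ℝ) (φ : V → V) (j : ι) (X : Finset V) :
    ∑ i ∈ X, qv a φ j i = ∑ v ∈ univ.filter (fun v => φ v ∈ X), a j v := by
  rw [← Finset.sum_fiberwise_of_maps_to (s := univ.filter (fun v => φ v ∈ X)) (t := X) (g := φ)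
    (fun v hv => (Finset.mem_filter.mp hv).2)]
  refine Finset.sum_congr rfl fun i hi => ?_
  unfold qv
  refine Finset.sum_congr ?_ fun _ _ => rfl
  ext v
  simp only [Finset.mem_filter, Finset.mem_univ, true_and]
  constructor
  · intro h
    exact ⟨h ▸ hi, h⟩
  · exact fun h => h.2

/-- The data of a cover with its edges. -/
structure Cov (V ι : Type) [Fintype V] [DecidableEq V] [Fintype ι] [DecidableEq ι]
    (k : ℕ) where
  a : ι → V → ℝ
  cov : ∀ X : Finset V, X.Nonempty → X ≠ univ →
    k ≤ (univ.filter (fun j => ∑ v ∈ X, a j v = 1)).card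
  E : Finset ι
  p : ι → V
  q : ι → V
  edge : ∀ j ∈ E, ∀ X : Finset V, ∑ v ∈ X, a j v =
    (if p j ∈ X then 1 else 0) + (if q j ∈ X then 1 else 0)

variable {k : ℕ} (A : Cov V ι k)

namespace Cov

/-- The edges killed by `φ`. -/
def killed (φ : V → V) : Finset ι := A.E.filter (fun j => φ (A.p j) = φ (A.q j))

/-- Good contractions. -/
structure Good (φ : V → V) : Prop where
  idem : ∀ v, φ (φ v) = φ v
  count : Fintype.card V ≤ (univ.image φ).card + (A.killed φ).card

theorem good_id : A.Good id where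
  idem := fun _ => rfl
  count := by simp

/-- covering property of the quotient -/
theorem qcov (φ : V → V) (X : Finset V) (h1 : ∃ v, φ v ∈ X) (h2 : ∃ v, φ v ∉ X) :
    k ≤ (univ.filter (fun j => ∑ i ∈ X, qv A.a φ j i = 1)).card := by
  simp_rw [sum_qv]
  apply A.cov
  · obtain ⟨v, hv⟩ := h1
    exact ⟨v, by simpa using hv⟩
  · obtain ⟨v, hv⟩ := h2
    intro h
    have : v ∈ univ.filter (fun v => φ v ∈ X) := by rw [h]; exact Finset.mem_univ v
    exact hv (by simpa using this)

theorem qedge (φ : V → V) {j : ι} (hj : j ∈ A.E) (X : Finset V) :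
    ∑ i ∈ X, qv A.a φ j i =
      (if φ (A.p j) ∈ X then 1 else 0) + (if φ (A.q j) ∈ X then 1 else 0) := by
  rw [sum_qv, A.edge j hj]
  simp

/-- killed members never cover -/
theorem killed_ne (φ : V → V) {j : ι} (hj : j ∈ A.killed φ) (X : Finset V) :
    ∑ i ∈ X, qv A.a φ j i ≠ 1 := by
  rw [killed, Finset.mem_filter] at hj
  rw [A.qedge φ hj.1, hj.2]
  split_ifs <;> norm_num

/-- merging the class of `y` into the class of `x` -/
def merge (φ : V → V) (x y : V) : V → V := fun v => if φ v = y then x else φ v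

theorem good_merge {φ : V → V} (hφ : A.Good φ) {j : ι} (hj : j ∈ A.E) {x y : V} (hxy : x ≠ y)
    (h : (φ (A.p j) = x ∧ φ (A.q j) = y) ∨ (φ (A.p j) = y ∧ φ (A.q j) = x)) :
    A.Good (merge φ x y) ∧ (univ.image (merge φ x y)).card < (univ.image φ).card := by
  have hx : φ x = x := by
    rcases h with ⟨h1, _⟩ | ⟨_, h1⟩ <;> rw [← h1, hφ.idem]
  have hy : y ∈ univ.image φ := by
    rcases h with ⟨_, h1⟩ | ⟨h1, _⟩
    · exact Finset.mem_image.mpr ⟨_, Finset.mem_univ _, h1⟩
    · exact Finset.mem_image.mpr ⟨_, Finset.mem_univ _, h1⟩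
  have himg : univ.image (merge φ x y) = (univ.image φ).erase y := by
    ext z
    simp only [Finset.mem_image, Finset.mem_univ, true_and, Finset.mem_erase, merge]
    constructor
    · rintro ⟨v, hv⟩
      split_ifs at hv with hvy
      · subst hv
        exact ⟨hxy, x, hx⟩
      · exact ⟨fun hzy => hvy (hv.trans hzy), v, hv⟩
    · rintro ⟨hzy, v, hv⟩
      refine ⟨v, ?_⟩
      rw [if_neg (fun h' => hzy (hv ▸ h'))]
      exact hv
  have hcard : (univ.image (merge φ x y)).card + 1 = (univ.image φ).card := by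
    rw [himg, Finset.card_erase_add_one hy]
  have hkill : insert j (A.killed φ) ⊆ A.killed (merge φ x y) := by
    intro j' hj'
    rw [Finset.mem_insert] at hj'
    rcases hj' with rfl | hj'
    · rw [killed, Finset.mem_filter]
      refine ⟨hj, ?_⟩
      rcases h with ⟨h1, h2⟩ | ⟨h1, h2⟩
      · simp [merge, h1, h2, hxy]
      · simp [merge, h1, h2, hxy]
    · rw [killed, Finset.mem_filter] at hj' ⊢
      refine ⟨hj'.1, ?_⟩
      simp [merge, hj'.2]
  have hjk : j ∉ A.killed φ := by
    rw [killed, Finset.mem_filter]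
    rintro ⟨_, h3⟩
    rcases h with ⟨h1, h2⟩ | ⟨h1, h2⟩
    · exact hxy (by rw [← h1, ← h2, h3])
    · exact hxy (by rw [← h1, ← h2, h3])
  have hkc := Finset.card_le_card hkill
  rw [Finset.card_insert_of_notMem hjk] at hkc
  refine ⟨⟨?_, ?_⟩, by omega⟩
  · intro v
    simp only [merge]
    split_ifs with h1 h2 h2
    · rfl
    · exact hx
    · rw [hφ.idem] at h2
      exact absurd h2 h1
    · exact hφ.idem v
  · have := hφ.count
    omega

/-- the vertices outside the core `T` of the alive edges -/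
def rest (φ : V → V) (T : Finset V) : Finset V := univ.image φ \ T

theorem rest_cov (hk : 1 ≤ k) {φ : V → V} {T : Finset V}
    (hT : ∃ v ∈ T, φ v = v)
    (hall : ∀ j ∈ A.E, φ (A.p j) ≠ φ (A.q j) → φ (A.p j) ∈ T ∧ φ (A.q j) ∈ T)
    {u : Finset V} (hu : u ⊆ rest φ T) (hne : u.Nonempty) :
    ∃ w ∈ A.Eᶜ, ∑ i ∈ u, qv A.a φ w i = 1 := by
  obtain ⟨c, hcT, hc⟩ := hT
  have h1 : ∃ v, φ v ∈ u := by
    obtain ⟨x, hx⟩ := hne
    have hx' := hu hx
    rw [rest, Finset.mem_sdiff, Finset.mem_image] at hx'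
    obtain ⟨⟨v, -, hv⟩, -⟩ := hx'
    exact ⟨v, hv ▸ hx⟩
  have h2 : ∃ v, φ v ∉ u := by
    refine ⟨c, fun h => ?_⟩
    rw [hc] at h
    have := hu h
    rw [rest, Finset.mem_sdiff] at this
    exact this.2 hcT
  have h3 := A.qcov φ u h1 h2
  have h4 : 0 < (univ.filter (fun j => ∑ i ∈ u, qv A.a φ j i = 1)).card := by omega
  obtain ⟨j, hj⟩ := Finset.card_pos.mp h4
  rw [Finset.mem_filter] at hj
  refine ⟨j, ?_, hj.2⟩
  rw [Finset.mem_compl]
  intro hjE
  have h5 := A.qedge φ hjE u
  rw [hj.2] at h5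
  by_cases hpq : φ (A.p j) = φ (A.q j)
  · rw [hpq] at h5
    split_ifs at h5 <;> norm_num at h5
  · obtain ⟨hp, hq⟩ := hall j hjE hpq
    have hp' : φ (A.p j) ∉ u := fun h => by
      have := hu h
      rw [rest, Finset.mem_sdiff] at this
      exact this.2 hp
    have hq' : φ (A.q j) ∉ u := fun h => by
      have := hu h
      rw [rest, Finset.mem_sdiff] at this
      exact this.2 hq
    rw [if_neg hp', if_neg hq'] at h5
    norm_num at h5

theorem rest_card (hk : 1 ≤ k) {φ : V → V} {T : Finset V}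
    (hT : ∃ v ∈ T, φ v = v)
    (hall : ∀ j ∈ A.E, φ (A.p j) ≠ φ (A.q j) → φ (A.p j) ∈ T ∧ φ (A.q j) ∈ T) :
    (rest φ T).card ≤ A.Eᶜ.card := by
  have := star_poly (rest φ T) A.Eᶜ (fun w i => qv A.a φ w i) (fun _ => 0) 1
    (fun u hu hne => A.rest_cov hk hT hall hu hne) (fun u _ t ht1 ht2 => by omega)
  simpa using this

/-- The star case. -/
theorem star_case (hk : 1 ≤ k) (d : ℕ) : ∃ n1 : ℕ, ∀ {V ι : Type} [Fintype V] [DecidableEq V]
    [Fintype ι] [DecidableEq ι] (A : Cov V ι k), A.Eᶜ.card ≤ d → ∀ (φ : V → V), A.Good φ →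
    ∀ (c : V), φ c = c → ∀ Nb : Finset V, c ∉ Nb → (∀ i ∈ Nb, φ i = i) →
    (∀ i ∈ Nb, ∃ j ∈ A.E, (φ (A.p j) = c ∧ φ (A.q j) = i) ∨ (φ (A.p j) = i ∧ φ (A.q j) = c)) →
    (∀ j ∈ A.E, φ (A.p j) ≠ φ (A.q j) → φ (A.p j) ∈ insert c Nb ∧ φ (A.q j) ∈ insert c Nb) →
    n1 ≤ Nb.card → Fintype.card V + k.choose 2 ≤ Fintype.card ι + 1 := by
  classical
  obtain ⟨n1, hn1⟩ := sel k (2 ^ d) (d + k.choose 2)
  refine ⟨n1 + 1, ?_⟩
  intro V ι _ _ _ _ A hd φ hφ c hc Nb hcNb hNb hδ hall hcard
  have hιne : Nonempty ι := by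
    obtain ⟨i, hi⟩ := Finset.card_pos.mp (show 0 < Nb.card by omega)
    obtain ⟨j, -, -⟩ := hδ i hi
    exact ⟨j⟩
  by_contra hcon
  push Not at hcon
  set T := insert c Nb with hT
  set R := rest φ T with hR
  have hTc : ∃ v ∈ T, φ v = v := ⟨c, Finset.mem_insert_self _ _, hc⟩
  have hRd : R.card ≤ d := (A.rest_card hk hTc hall).trans hd
  choose! δ hδE hδ' using hδ
  set D := Nb.image δ with hD
  have hδinj : Set.InjOn δ Nb := by
    intro i hi i' hi' heq
    have hi0 : i ≠ c := fun h => hcNb (h ▸ hi)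
    have hi0' : i' ≠ c := fun h => hcNb (h ▸ hi')
    rcases hδ' i hi with ⟨h1, h2⟩ | ⟨h1, h2⟩ <;> rcases hδ' i' hi' with ⟨h3, h4⟩ | ⟨h3, h4⟩
    · rw [heq] at h2; exact h2.symm.trans h4
    · rw [heq] at h2; exact absurd (h2.symm.trans h4) hi0
    · rw [heq] at h2; rw [heq] at h1; exact absurd (h1.symm.trans h3) hi0
    · rw [heq] at h1; exact h1.symm.trans h3
  have hDc : D.card = Nb.card := Finset.card_image_of_injOn hδinj
  have hDk : Disjoint (A.killed φ) D := by
    rw [Finset.disjoint_left]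
    intro j hj hjD
    rw [hD, Finset.mem_image] at hjD
    obtain ⟨i, hi, rfl⟩ := hjD
    rw [killed, Finset.mem_filter] at hj
    have hi0 : i ≠ c := fun h => hcNb (h ▸ hi)
    rcases hδ' i hi with ⟨h1, h2⟩ | ⟨h1, h2⟩
    · rw [h1, h2] at hj; exact hi0 hj.2.symm
    · rw [h1, h2] at hj; exact hi0 hj.2
  set W := (A.killed φ ∪ D)ᶜ with hW
  have hWc : W.card + (A.killed φ).card + Nb.card = Fintype.card ι := by
    have h1 := Finset.card_compl_add_card (A.killed φ ∪ D)
    rw [Finset.card_union_of_disjoint hDk, hDc] at h1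
    rw [← hW] at h1
    omega
  have himg : (univ.image φ).card = 1 + Nb.card + R.card := by
    have hsub : T ⊆ univ.image φ := by
      intro x hx
      rw [hT, Finset.mem_insert] at hx
      rw [Finset.mem_image]
      rcases hx with rfl | hx
      · exact ⟨x, Finset.mem_univ _, hc⟩
      · exact ⟨x, Finset.mem_univ _, hNb x hx⟩
    have h1 := Finset.card_sdiff_add_card_eq_card hsub
    have h2 : T.card = Nb.card + 1 := by rw [hT, Finset.card_insert_of_notMem hcNb]
    have h3 : R.card = (univ.image φ \ T).card := rfl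
    omega
  have hcount := hφ.count
  have hWlt : W.card < R.card + k.choose 2 := by omega
  obtain ⟨S, hSN, hSc, hS⟩ := hn1 Nb W (fun j i => qv A.a φ j i)
    (fun j => R.powerset.image (fun u => 1 - ∑ i ∈ u, qv A.a φ j i)) (by omega) (by omega)
    (fun j _ => Finset.card_image_le.trans (by
      rw [Finset.card_powerset]
      exact Nat.pow_le_pow_right (by norm_num) hRd))
  have hlam : ∀ j : ι, ∃ l : ℝ, j ∈ W → (∀ i ∈ S, qv A.a φ j i = l) ∨
      (∀ w ⊆ S, w.Nonempty → ∑ i ∈ w, qv A.a φ j i ∉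
        R.powerset.image (fun u => 1 - ∑ i ∈ u, qv A.a φ j i)) := by
    intro j
    by_cases hj : j ∈ W
    · rcases hS j hj with ⟨l, hl⟩ | h
      · exact ⟨l, fun _ => Or.inl hl⟩
      · exact ⟨0, fun _ => Or.inr h⟩
    · exact ⟨0, fun h => absurd h hj⟩
  choose lam hlam using hlam
  have hRT : ∀ x ∈ R, x ∉ T := fun x hx => by
    rw [hR, rest, Finset.mem_sdiff] at hx
    exact hx.2
  refine absurd (star_poly R W (fun w i => qv A.a φ w i) lam k ?_ ?_) (not_le.mpr hWlt)
  · intro u hu hne
    obtain ⟨w, hw, hw1⟩ := A.rest_cov hk hTc hall hu hne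
    refine ⟨w, ?_, hw1⟩
    rw [Finset.mem_compl] at hw
    rw [hW, Finset.mem_compl, Finset.mem_union]
    rintro (h | h)
    · rw [killed, Finset.mem_filter] at h
      exact hw h.1
    · rw [hD, Finset.mem_image] at h
      obtain ⟨i, hi, rfl⟩ := h
      exact hw (hδE i hi)
  · intro u hu t ht1 htk
    obtain ⟨w, hwS, hwc⟩ := Finset.exists_subset_card_eq (show t ≤ S.card by omega)
    have hwT : ∀ x ∈ w, x ∈ T := fun x hx => by
      rw [hT]; exact Finset.mem_insert_of_mem (hSN (hwS hx))
    have hdisj : Disjoint u w := by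
      rw [Finset.disjoint_left]
      intro x hxu hxw
      exact hRT x (hu hxu) (hwT x hxw)
    have hwne : w.Nonempty := Finset.card_pos.mp (by omega)
    have hcX : c ∉ u ∪ w := by
      rw [Finset.mem_union]
      rintro (h | h)
      · exact hRT c (hu h) (Finset.mem_insert_self _ _)
      · exact hcNb (hSN (hwS h))
    have hX := A.qcov φ (u ∪ w) (by
      obtain ⟨x, hx⟩ := hwne
      exact ⟨x, by rw [hNb x (hSN (hwS hx))]; exact Finset.mem_union_right _ hx⟩)
      ⟨c, by rw [hc]; exact hcX⟩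
    have hsub : univ.filter (fun j => ∑ i ∈ u ∪ w, qv A.a φ j i = 1) ⊆
        (W.filter (fun j => ∑ i ∈ u, qv A.a φ j i + lam j * t = 1)) ∪ w.image δ := by
      intro j hj
      rw [Finset.mem_filter] at hj
      have hj1 := hj.2
      rw [Finset.mem_union]
      by_cases hjW : j ∈ W
      · left
        rw [Finset.mem_filter]
        refine ⟨hjW, ?_⟩
        rw [Finset.sum_union hdisj] at hj1
        rcases hlam j hjW with h | h
        · rw [Finset.sum_congr rfl (fun i hi => h i (hwS hi)), Finset.sum_const, hwc,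
            nsmul_eq_mul] at hj1
          linarith
        · exfalso
          apply h w hwS hwne
          rw [Finset.mem_image]
          exact ⟨u, Finset.mem_powerset.mpr hu, by linarith⟩
      · right
        rw [hW, Finset.mem_compl, not_not, Finset.mem_union] at hjW
        rcases hjW with h | h
        · exact absurd hj1 (A.killed_ne φ h _)
        · rw [hD, Finset.mem_image] at h
          obtain ⟨i, hi, rfl⟩ := h
          rw [Finset.mem_image]
          refine ⟨i, ?_, rfl⟩
          have hiX : i ∈ u ∪ w := by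
            by_contra hiX
            rw [A.qedge φ (hδE i hi)] at hj1
            rcases hδ' i hi with ⟨h1, h2⟩ | ⟨h1, h2⟩
            · rw [h1, h2, if_neg hcX, if_neg hiX] at hj1
              norm_num at hj1
            · rw [h1, h2, if_neg hcX, if_neg hiX] at hj1
              norm_num at hj1
          rw [Finset.mem_union] at hiX
          refine hiX.resolve_left fun h' => ?_
          exact hRT i (hu h') (by rw [hT]; exact Finset.mem_insert_of_mem hi)
    have h5 := Finset.card_le_card hsub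
    have h6 := Finset.card_union_le (W.filter (fun j => ∑ i ∈ u, qv A.a φ j i + lam j * t = 1))
      (w.image δ)
    have h7 : (w.image δ).card ≤ t := Finset.card_image_le.trans hwc.le
    omega

end Cov

end Pool.Agent.Helper66.AC
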